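import Pool.Agent.Lib_MP_9d9d56_gt.Defs
import Pool.Agent.Lib_MP_9d9d56_gt.Final

/-!
# Homotopies through isometric foldings of spheres

Any two non-trivial isometric foldings of the round sphere `S^m`, `m ≥ 1`, are homotopic through
isometric foldings. Here `S^m` is the unit sphere of a Euclidean space `V` of dimension `m + 1`.

The definitions (`GeodesicOn`, `PiecewiseGeodesicOn`, `IsIsometricFolding`) are in
`Pool.Agent.Lib_MP_9d9d56_gt.Defs`.
-/

set_option autoImplicit false

namespace Pool.Agent.Results.MP_9d9d56_gt.FoldingHomotopy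

open Pool.Agent.Fold

universe u

/-- **Main theorem.** Let `m ≥ 1` and let `f`, `g` be isometric foldings of the unit sphere `S^m`
of a Euclidean space `V` of dimension `m + 1`, neither of which is an isometry. Then `f` and `g`
are homotopic through isometric foldings. -/
theorem result {V : Type u} [NormedAddCommGroup V] [InnerProductSpace ℝ V]
    [FiniteDimensional ℝ V] (m : ℕ) (hm : 1 ≤ m) (hV : Module.finrank ℝ V = m + 1)
    (f g : C(Metric.sphere (0 : V) 1, Metric.sphere (0 : V) 1))
    (hf : IsIsometricFolding f) (hg : IsIsometricFolding g)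
    (hf' : ¬ Isometry f) (hg' : ¬ Isometry g) :
    ContinuousMap.HomotopicWith f g IsIsometricFolding :=
  main_sphere (by omega) f g hf hg hf' hg'

/-- Sanity check: non-trivial isometric foldings exist (fold one hemisphere onto the other). -/
theorem exists_nontrivial {V : Type u} [NormedAddCommGroup V] [InnerProductSpace ℝ V]
    [Nontrivial V] :
    ∃ f : C(Metric.sphere (0 : V) 1, Metric.sphere (0 : V) 1),
      IsIsometricFolding f ∧ ¬ Isometry f := by
  obtain ⟨v, hv⟩ : ∃ v : V, ‖v‖ = 1 := exists_norm_eq V zero_le_one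
  have hF := isFold_gfold hv
  have hmem : ∀ x : Sph V, gfold v (x : V) ∈ Metric.sphere (0 : V) 1 := fun x => by
    rw [mem_sphere_zero_iff_norm, hF.norm_map, norm_sph]
  let f : C(Sph V, Sph V) :=
    { toFun := fun x => ⟨gfold v (x : V), hmem x⟩
      continuous_toFun := Continuous.subtype_mk (hF.cont.comp continuous_subtype_val) hmem }
  refine ⟨f, isIsometricFolding_of_isFold hF fun x => rfl, fun hiso => ?_⟩
  have hvm : v ∈ Metric.sphere (0 : V) 1 := by rw [mem_sphere_zero_iff_norm, hv]
  have hvm' : -v ∈ Metric.sphere (0 : V) 1 := by rw [mem_sphere_zero_iff_norm, norm_neg, hv]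
  have h1 : f ⟨v, hvm⟩ = f ⟨-v, hvm'⟩ := by
    apply Subtype.ext
    show gfold v v = gfold v (-v)
    simp only [gfold, inner_neg_right, abs_neg, real_inner_self_eq_norm_sq, hv]
    norm_num
    module
  have h2 := congrArg Subtype.val (hiso.injective h1)
  have h3 : v = -v := h2
  have h4 : v = 0 := by
    have h5 : (2 : ℝ) • v = 0 := by
      rw [two_smul]; nth_rewrite 2 [h3]; exact add_neg_cancel v
    exact (smul_eq_zero.mp h5).resolve_left two_ne_zero
  rw [h4, norm_zero] at hv
  exact zero_ne_one hv

end Pool.Agent.Results.MP_9d9d56_gt.FoldingHomotopy
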